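import Mathlib
import Pool.Agent.H14.Sofic

namespace Pool.Agent.Results.MP_9f8f27_al.Z3

open Finset

/-- The ball of radius `n` for the generating set `S`. -/
def ball {G : Type} [Group G] (S : Finset G) (n : ℕ) : Set G :=
  {g | ∃ l : List G, l.length ≤ n ∧ (∀ x ∈ l, x ∈ S) ∧ l.prod = g}

/-- Normalized Hamming distance on `Sym(k)`. -/
noncomputable def dHam {k : ℕ} (σ τ : Equiv.Perm (Fin k)) : ℝ :=
  (#{i : Fin k | σ i ≠ τ i} : ℝ) / (k : ℝ)

/-- The sofic profile, with value `⊤` when there is no approximation. -/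
noncomputable def profile {G : Type} [Group G] (S : Finset G) (n : ℕ) : ℕ∞ :=
  sInf {d : ℕ∞ | ∃ k : ℕ, d = k ∧ 0 < k ∧ ∃ σ : G → Equiv.Perm (Fin k),
    (∀ g ∈ ball S n, ∀ h ∈ ball S n, g * h ∈ ball S n →
      dHam (σ g * σ h) (σ (g * h)) < 1 / (n : ℝ)) ∧
    (∀ g ∈ ball S n, ∀ h ∈ ball S n, g ≠ h → 1 - 1 / (n : ℝ) < dHam (σ g) (σ h))}

open Pool.Agent.H14.Sofic in
def T : Finset G := S ∪ S.image (fun x => x⁻¹)

open Pool.Agent.H14.Sofic in
lemma mem_T (x : G) : x ∈ T ↔ x ∈ S ∨ x⁻¹ ∈ S := by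
  simp only [T, mem_union, mem_image]
  constructor
  · rintro (h | ⟨y, hy, rfl⟩)
    · exact Or.inl h
    · right; simpa using hy
  · rintro (h | h)
    · exact Or.inl h
    · exact Or.inr ⟨_, h, inv_inv x⟩

open Pool.Agent.H14.Sofic in
lemma mem_ball (n : ℕ) (g : G) : g ∈ ball T n ↔ InBall n g := by
  simp only [ball, InBall, mem_T, Set.mem_setOf_eq]

open Pool.Agent.H14.Sofic in
lemma profile_le (n p : ℕ) (hn : 0 < n) (hp : p.Prime) (hN : 2 * n < p) :
    profile T n ≤ (p * p : ℕ) := by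
  apply sInf_le
  refine ⟨p * p, rfl, Nat.mul_pos hp.pos hp.pos, ?_⟩
  obtain ⟨φ, hφ⟩ := exists_hom p hp
  have h1 : (0 : ℝ) < n := by exact_mod_cast hn
  refine ⟨φ, fun g _ h _ _ => ?_, fun g hg h hh hgh => ?_⟩
  · simp only [dHam, map_mul, ne_eq, not_true_eq_false, filter_false, card_empty, Nat.cast_zero,
      zero_div]
    positivity
  · rw [mem_ball] at hg hh
    have hne : h⁻¹ * g ≠ 1 := by
      intro h'
      apply hgh
      rw [inv_mul_eq_one] at h'
      exact h'.symm
    have hb : ∀ i, |(Multiplicative.toAdd (h⁻¹ * g)) i| < p := by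
      intro i
      have a1 := abs_le.1 (abs_le_of_inBall hg i)
      have a2 := abs_le.1 (abs_le_of_inBall hh i)
      have h2 : ((2 * n : ℕ) : ℤ) < p := by exact_mod_cast hN
      push_cast at h2
      simp only [toAdd_mul, toAdd_inv, Pi.add_apply, Pi.neg_apply]
      rw [abs_lt]
      constructor <;> linarith
    have h3 := moved_ge p hp _ (hφ _ hne hb)
    have h4 : (#{i : Fin (p * p) | φ (h⁻¹ * g) i ≠ i}) = #{i : Fin (p * p) | φ g i ≠ φ h i} := by
      congr 1
      ext i
      simp only [map_mul, map_inv, mem_filter, mem_univ, true_and, Equiv.Perm.mul_apply, ne_eq,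
        Equiv.Perm.inv_eq_iff_eq]
    rw [h4] at h3
    have h2 : ((2 * n : ℕ) : ℝ) < p := by exact_mod_cast hN
    push_cast at h2
    have : 2 / (p : ℝ) < 1 / (n : ℝ) := by
      rw [div_lt_div_iff₀ (by linarith) h1]
      linarith
    unfold dHam
    linarith

/-- For `G = Z^3` with a finite symmetric generating set the sofic profile is finite and the
growth function is not dominated by it. -/
theorem result :
    ∃ S : Finset (Multiplicative (Fin 3 → ℤ)), (∀ x ∈ S, x⁻¹ ∈ S) ∧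
      Subgroup.closure (S : Set (Multiplicative (Fin 3 → ℤ))) = ⊤ ∧
      (∀ n : ℕ, 0 < n → profile S n ≤ (16 * n ^ 2 : ℕ)) ∧
      ∀ C : ℕ, 0 < C → ∃ n : ℕ, 0 < n ∧ (C : ℕ∞) * profile S (C * n) < (ball S n).encard := by
  have hA : ∀ n : ℕ, 0 < n → profile T n ≤ (16 * n ^ 2 : ℕ) := by
    intro n hn
    obtain ⟨p, hp, hp1, hp2⟩ := Nat.exists_prime_lt_and_le_two_mul (2 * n) (by positivity)
    refine le_trans (profile_le n p hn hp hp1) ?_
    have : p * p ≤ 16 * n ^ 2 := by nlinarith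
    exact_mod_cast this
  refine ⟨T, ?_, ?_, hA, ?_⟩
  · intro x hx
    rw [mem_T] at hx ⊢
    rw [inv_inv]
    exact hx.symm
  · rw [eq_top_iff, ← Pool.Agent.H14.Sofic.closure_S]
    apply Subgroup.closure_mono
    intro x hx
    exact (mem_T x).2 (Or.inl hx)
  · intro C hC
    set m := 144 * C ^ 3 with hm
    have hm0 : 0 < m := by positivity
    refine ⟨3 * m, by positivity, ?_⟩
    have h1 := hA (C * (3 * m)) (by positivity)
    have h5 := Pool.Agent.H14.Sofic.card_ball m
    have hfin := Pool.Agent.H14.Sofic.finite_ball (3 * m)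
    have hset : ball T (3 * m) = {g | Pool.Agent.H14.Sofic.InBall (3 * m) g} := by
      ext g
      exact mem_ball _ _
    have hf : (ball T (3 * m)).Finite := by
      rw [hset]
      exact hfin
    have h6 : (ball T (3 * m)).encard
        = (Nat.card {g // Pool.Agent.H14.Sofic.InBall (3 * m) g} : ℕ) := by
      rw [← hf.cast_ncard_eq, hset, Set.ncard_def, Set.encard, ENat.card]
      rfl
    have h8 : C * (16 * (C * (3 * m)) ^ 2)
        < Nat.card {g // Pool.Agent.H14.Sofic.InBall (3 * m) g} := by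
      calc C * (16 * (C * (3 * m)) ^ 2) = (144 * C ^ 3) * m ^ 2 := by ring
        _ = m ^ 3 := by rw [← hm]; ring
        _ < (m + 1) ^ 3 := Nat.pow_lt_pow_left (by omega) (by norm_num)
        _ ≤ _ := h5
    rw [h6]
    calc (C : ℕ∞) * profile T (C * (3 * m))
        ≤ (C : ℕ∞) * ((16 * (C * (3 * m)) ^ 2 : ℕ) : ℕ∞) := by gcongr
      _ = ((C * (16 * (C * (3 * m)) ^ 2) : ℕ) : ℕ∞) := by push_cast; ring
      _ < _ := by exact_mod_cast h8

end Pool.Agent.Results.MP_9f8f27_al.Z3
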